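import Pool.Agent.helper57.LQ.SpecA

/-!
# Project lq:, module AF1: `coeff n (A f) = coeff 1 (A (T n f))`
-/

set_option autoImplicit false

open Finset PowerSeries

noncomputable section

namespace Pool.Agent.LQ

theorem AF1_one (n : ℕ) (h : FF) : coeff 1 (T n h) = coeff n h := by
  rw [coeff_T, Nat.gcd_one_left, Nat.divisors_one, Finset.sum_singleton]
  simp

theorem AF1 (hALG : ALG_stmt) : AF1_stmt := by
  intro N hN A hA f n hn
  have hT : T n ∈ TT N := Submodule.subset_span ⟨n, hn, rfl⟩
  have h1 : T n * A = A * T n := ((hALG N hN).2 (T n) hT A hA).2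
  rw [← AF1_one n (A f)]
  have h2 : T n (A f) = A (T n f) := by
    have := LinearMap.congr_fun h1 f
    exact this
  rw [h2]

end Pool.Agent.LQ
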